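import Pool.Agent.N640.WR.Stm

/-!
# Project WR (helper640): symmetric sets of differences with given total size
-/

set_option autoImplicit false

namespace Pool.Agent.N72.WR

open Finset

/-- a symmetric set with `k` elements -/
theorem sym (m k : ℕ) (hm : 1 ≤ m) (hk : k ≤ m - 1) (hpar : m % 2 = 1 → k % 2 = 0) :
    ∃ A : Finset ℕ, (∀ δ ∈ A, 1 ≤ δ ∧ δ < m ∧ m - δ ∈ A) ∧ A.card = k := by
  obtain ⟨a, ha⟩ : ∃ a, a = k / 2 := ⟨_, rfl⟩
  have hdis : Disjoint (Icc 1 a) (Icc (m - a) (m - 1)) := by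
    rw [Finset.disjoint_left]
    intro x hx hx'
    rw [mem_Icc] at hx hx'
    omega
  have hcard : (Icc 1 a ∪ Icc (m - a) (m - 1)).card = a + a := by
    rw [card_union_of_disjoint hdis, Nat.card_Icc, Nat.card_Icc]
    omega
  rcases Nat.mod_two_eq_zero_or_one k with h | h
  · refine ⟨Icc 1 a ∪ Icc (m - a) (m - 1), ?_, ?_⟩
    · intro δ hδ
      rw [mem_union, mem_Icc, mem_Icc] at hδ
      rw [mem_union, mem_Icc, mem_Icc]
      omega
    · rw [hcard]
      omega
  · have hm2 : m % 2 = 0 := by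
      rcases Nat.mod_two_eq_zero_or_one m with h' | h'
      · exact h'
      · have := hpar h'
        omega
    refine ⟨insert (m / 2) (Icc 1 a ∪ Icc (m - a) (m - 1)), ?_, ?_⟩
    · intro δ hδ
      rw [mem_insert, mem_union, mem_Icc, mem_Icc] at hδ
      rw [mem_insert, mem_union, mem_Icc, mem_Icc]
      omega
    · rw [card_insert_of_notMem, hcard]
      · omega
      · rw [mem_union, mem_Icc, mem_Icc]
        omega

theorem sum_min (a r : ℕ) (n : ℕ) :
    ∑ i ∈ range n, min a (r - i * a) = min r (n * a) := by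
  induction n with
  | zero => simp
  | succ n ih =>
    rw [sum_range_succ, ih, Nat.succ_mul]
    omega

/-- **The layers.** -/
theorem lay_ : Pool.Agent.N640.WR.S_LAY := by
  classical
  intro d m t hm ht
  obtain ⟨r, hr⟩ : ∃ r, r = d * (m - 1) - t := ⟨_, rfl⟩
  have hex : ∀ i, ∃ A : Finset ℕ, (∀ δ ∈ A, 1 ≤ δ ∧ δ < m ∧ m - δ ∈ A) ∧
      A.card = min (m - 1) (r - i * (m - 1)) := by
    intro i
    refine sym m _ hm (min_le_left _ _) fun hodd => ?_
    obtain ⟨c, hc⟩ : ∃ c, m - 1 = 2 * c := ⟨(m - 1) / 2, by omega⟩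
    have h1 : d * (m - 1) = 2 * (d * c) := by rw [hc]; ring
    have h2 : i * (m - 1) = 2 * (i * c) := by rw [hc]; ring
    rw [hr, h1, h2, hc]
    omega
  choose A hA hAc using hex
  have hsum : ∑ i ∈ range d, (A i).card = d * (m - 1) - t := by
    simp only [hAc]
    rw [sum_min, ← hr]
    omega
  have hsub : ∀ i, A i ⊆ Ico 1 m := by
    intro i δ hδ
    have := hA i δ hδ
    rw [mem_Ico]
    omega
  obtain ⟨P, hP⟩ : ∃ P : Finset (ℕ × ℕ),
      P = (range d).biUnion fun i => (Ico 1 m \ A i).image (Prod.mk i) := ⟨_, rfl⟩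
  have hPm : ∀ i δ, i < d → 1 ≤ δ → δ < m → δ ∉ A i → (i, δ) ∈ P := by
    intro i δ hi h1 h2 h3
    rw [hP, mem_biUnion]
    exact ⟨i, mem_range.2 hi, mem_image_of_mem _ (mem_sdiff.2 ⟨mem_Ico.2 ⟨h1, h2⟩, h3⟩)⟩
  have hPc : P.card ≤ t := by
    have h1 : P.card ≤ ∑ i ∈ range d, (Ico 1 m \ A i).card := by
      rw [hP]
      exact card_biUnion_le.trans (sum_le_sum fun i _ => card_image_le)
    have h2 : ∑ i ∈ range d, (Ico 1 m \ A i).card + ∑ i ∈ range d, (A i).card =
        d * (m - 1) := by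
      rw [← sum_add_distrib]
      rw [sum_congr rfl fun i _ => card_sdiff_add_card_eq_card (hsub i)]
      rw [sum_const, card_range, smul_eq_mul, Nat.card_Ico]
    rw [hsum] at h2
    omega
  refine ⟨A, fun i δ => if h : (i, δ) ∈ P then (P.equivFin ⟨(i, δ), h⟩ : ℕ) else 0,
    fun i _ => hA i, hsum, ?_, ?_⟩
  · intro i hi δ h1 h2 h3
    simp only [dif_pos (hPm i δ hi h1 h2 h3)]
    exact (P.equivFin _).isLt.trans_le hPc
  · intro i hi i' hi' δ δ' h1 h2 h3 h1' h2' h3' h
    simp only [dif_pos (hPm i δ hi h1 h2 h3), dif_pos (hPm i' δ' hi' h1' h2' h3')] at h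
    have h4 := congrArg Subtype.val (P.equivFin.injective (Fin.ext h))
    exact ⟨congrArg Prod.fst h4, congrArg Prod.snd h4⟩

end Pool.Agent.N72.WR
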